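import Pool.Agent.H770.GS.TF

set_option autoImplicit false

open MeasureTheory Set intervalIntegral

namespace Pool.Agent.H675.TF12

open Pool.Agent.H770.GS

theorem nonneg_of_deriv {f f' : ℝ → ℝ} (h0 : 0 ≤ f 0) (hd : ∀ x, HasDerivAt f (f' x) x)
    (hn : ∀ x, 0 ≤ x → 0 ≤ f' x) : ∀ x, 0 ≤ x → 0 ≤ f x := by
  intro x hx
  have hm : MonotoneOn f (Ici 0) := by
    apply monotoneOn_of_deriv_nonneg (convex_Ici 0)
    · exact fun y _ => (hd y).continuousAt.continuousWithinAt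
    · exact fun y _ => (hd y).differentiableAt.differentiableWithinAt
    · intro y hy
      rw [interior_Ici] at hy
      rw [(hd y).deriv]
      exact hn y (le_of_lt hy)
  exact h0.trans (hm (by simp) hx hx)

theorem c1 (x : ℝ) : 0 ≤ 1 - Real.cos x := by linarith [Real.cos_le_one x]

theorem s1 : ∀ x : ℝ, 0 ≤ x → 0 ≤ x - Real.sin x := by
  apply nonneg_of_deriv (f' := fun x => 1 - Real.cos x) (by simp)
  · intro x
    exact (hasDerivAt_id x).sub (Real.hasDerivAt_sin x)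
  · intro x _; exact c1 x

theorem c2 : ∀ x : ℝ, 0 ≤ x → 0 ≤ Real.cos x - 1 + x ^ 2 / 2 := by
  apply nonneg_of_deriv (f' := fun x => x - Real.sin x) (by simp)
  · intro x
    have h := ((Real.hasDerivAt_cos x).sub_const (1 : ℝ)).add ((hasDerivAt_pow 2 x).div_const 2)
    refine h.congr_deriv ?_
    norm_num; ring
  · exact s1

theorem s2 : ∀ x : ℝ, 0 ≤ x → 0 ≤ Real.sin x - x + x ^ 3 / 6 := by
  apply nonneg_of_deriv (f' := fun x => Real.cos x - 1 + x ^ 2 / 2) (by simp)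
  · intro x
    have h := ((Real.hasDerivAt_sin x).sub (hasDerivAt_id x)).add ((hasDerivAt_pow 3 x).div_const 6)
    refine h.congr_deriv ?_
    norm_num; ring
  · exact c2

theorem c3 : ∀ x : ℝ, 0 ≤ x → 0 ≤ 1 - x ^ 2 / 2 + x ^ 4 / 24 - Real.cos x := by
  apply nonneg_of_deriv (f' := fun x => Real.sin x - x + x ^ 3 / 6) (by simp)
  · intro x
    have h := (((hasDerivAt_const x (1 : ℝ)).sub ((hasDerivAt_pow 2 x).div_const 2)).add
      ((hasDerivAt_pow 4 x).div_const 24)).sub (Real.hasDerivAt_cos x)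
    refine h.congr_deriv ?_
    norm_num; ring
  · exact s2

theorem s3 : ∀ x : ℝ, 0 ≤ x → 0 ≤ x - x ^ 3 / 6 + x ^ 5 / 120 - Real.sin x := by
  apply nonneg_of_deriv (f' := fun x => 1 - x ^ 2 / 2 + x ^ 4 / 24 - Real.cos x) (by simp)
  · intro x
    have h := (((hasDerivAt_id x).sub ((hasDerivAt_pow 3 x).div_const 6)).add
      ((hasDerivAt_pow 5 x).div_const 120)).sub (Real.hasDerivAt_sin x)
    refine h.congr_deriv ?_
    norm_num; ring
  · exact c3

theorem c4 : ∀ x : ℝ, 0 ≤ x → 0 ≤ Real.cos x - 1 + x ^ 2 / 2 - x ^ 4 / 24 + x ^ 6 / 720 := by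
  apply nonneg_of_deriv (f' := fun x => x - x ^ 3 / 6 + x ^ 5 / 120 - Real.sin x) (by simp)
  · intro x
    have h := ((((Real.hasDerivAt_cos x).sub_const (1 : ℝ)).add
      ((hasDerivAt_pow 2 x).div_const 2)).sub ((hasDerivAt_pow 4 x).div_const 24)).add
      ((hasDerivAt_pow 6 x).div_const 720)
    refine h.congr_deriv ?_
    norm_num; ring
  · exact s3

theorem s4 : ∀ x : ℝ, 0 ≤ x → 0 ≤ Real.sin x - x + x ^ 3 / 6 - x ^ 5 / 120 + x ^ 7 / 5040 := by
  apply nonneg_of_deriv (f' := fun x => Real.cos x - 1 + x ^ 2 / 2 - x ^ 4 / 24 + x ^ 6 / 720)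
    (by simp)
  · intro x
    have h := ((((Real.hasDerivAt_sin x).sub (hasDerivAt_id x)).add
      ((hasDerivAt_pow 3 x).div_const 6)).sub ((hasDerivAt_pow 5 x).div_const 120)).add
      ((hasDerivAt_pow 7 x).div_const 5040)
    refine h.congr_deriv ?_
    norm_num; ring
  · exact c4

theorem c5 : ∀ x : ℝ, 0 ≤ x →
    0 ≤ 1 - x ^ 2 / 2 + x ^ 4 / 24 - x ^ 6 / 720 + x ^ 8 / 40320 - Real.cos x := by
  apply nonneg_of_deriv
    (f' := fun x => Real.sin x - x + x ^ 3 / 6 - x ^ 5 / 120 + x ^ 7 / 5040) (by simp)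
  · intro x
    have h := (((((hasDerivAt_const x (1 : ℝ)).sub ((hasDerivAt_pow 2 x).div_const 2)).add
      ((hasDerivAt_pow 4 x).div_const 24)).sub ((hasDerivAt_pow 6 x).div_const 720)).add
      ((hasDerivAt_pow 8 x).div_const 40320)).sub (Real.hasDerivAt_cos x)
    refine h.congr_deriv ?_
    norm_num; ring
  · exact s4

theorem s5 : ∀ x : ℝ, 0 ≤ x →
    0 ≤ x - x ^ 3 / 6 + x ^ 5 / 120 - x ^ 7 / 5040 + x ^ 9 / 362880 - Real.sin x := by
  apply nonneg_of_deriv
    (f' := fun x => 1 - x ^ 2 / 2 + x ^ 4 / 24 - x ^ 6 / 720 + x ^ 8 / 40320 - Real.cos x)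
    (by simp)
  · intro x
    have h := (((((hasDerivAt_id x).sub ((hasDerivAt_pow 3 x).div_const 6)).add
      ((hasDerivAt_pow 5 x).div_const 120)).sub ((hasDerivAt_pow 7 x).div_const 5040)).add
      ((hasDerivAt_pow 9 x).div_const 362880)).sub (Real.hasDerivAt_sin x)
    refine h.congr_deriv ?_
    norm_num; ring
  · exact c5

theorem c6 : ∀ x : ℝ, 0 ≤ x →
    0 ≤ Real.cos x - 1 + x ^ 2 / 2 - x ^ 4 / 24 + x ^ 6 / 720 - x ^ 8 / 40320 +
      x ^ 10 / 3628800 := by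
  apply nonneg_of_deriv
    (f' := fun x => x - x ^ 3 / 6 + x ^ 5 / 120 - x ^ 7 / 5040 + x ^ 9 / 362880 - Real.sin x)
    (by simp)
  · intro x
    have h := ((((((Real.hasDerivAt_cos x).sub_const (1 : ℝ)).add
      ((hasDerivAt_pow 2 x).div_const 2)).sub ((hasDerivAt_pow 4 x).div_const 24)).add
      ((hasDerivAt_pow 6 x).div_const 720)).sub ((hasDerivAt_pow 8 x).div_const 40320)).add
      ((hasDerivAt_pow 10 x).div_const 3628800)
    refine h.congr_deriv ?_
    norm_num; ring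
  · exact s5

theorem s6 : ∀ x : ℝ, 0 ≤ x →
    0 ≤ Real.sin x - x + x ^ 3 / 6 - x ^ 5 / 120 + x ^ 7 / 5040 - x ^ 9 / 362880 +
      x ^ 11 / 39916800 := by
  apply nonneg_of_deriv
    (f' := fun x => Real.cos x - 1 + x ^ 2 / 2 - x ^ 4 / 24 + x ^ 6 / 720 - x ^ 8 / 40320 +
      x ^ 10 / 3628800) (by simp)
  · intro x
    have h := ((((((Real.hasDerivAt_sin x).sub (hasDerivAt_id x)).add
      ((hasDerivAt_pow 3 x).div_const 6)).sub ((hasDerivAt_pow 5 x).div_const 120)).add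
      ((hasDerivAt_pow 7 x).div_const 5040)).sub ((hasDerivAt_pow 9 x).div_const 362880)).add
      ((hasDerivAt_pow 11 x).div_const 39916800)
    refine h.congr_deriv ?_
    norm_num; ring
  · exact c6

/-- upper bound for `sin x - x cos x` -/
theorem d5 : ∀ x : ℝ, 0 ≤ x →
    0 ≤ x ^ 3 / 3 - x ^ 5 / 30 + x ^ 7 / 840 - x ^ 9 / 45360 + x ^ 11 / 3991680 -
      (Real.sin x - x * Real.cos x) := by
  apply nonneg_of_deriv
    (f' := fun x => x * (x - x ^ 3 / 6 + x ^ 5 / 120 - x ^ 7 / 5040 + x ^ 9 / 362880 -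
      Real.sin x)) (by simp)
  · intro x
    have h := ((((((hasDerivAt_pow 3 x).div_const 3).sub ((hasDerivAt_pow 5 x).div_const 30)).add
      ((hasDerivAt_pow 7 x).div_const 840)).sub ((hasDerivAt_pow 9 x).div_const 45360)).add
      ((hasDerivAt_pow 11 x).div_const 3991680)).sub
      ((Real.hasDerivAt_sin x).sub ((hasDerivAt_id x).mul (Real.hasDerivAt_cos x)))
    refine h.congr_deriv ?_
    simp only [id]
    norm_num; ring
  · intro x hx
    exact mul_nonneg hx (s5 x hx)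

theorem poly (t : ℝ) (h0 : 0 ≤ t) (h1 : t ≤ 144 / 25) :
    0 ≤ (1 / 3 + 0.052 * t) * (1 - t / 6 + t ^ 2 / 120 - t ^ 3 / 5040 + t ^ 4 / 362880 -
      t ^ 5 / 39916800) - (1 / 3 - t / 30 + t ^ 2 / 840 - t ^ 3 / 45360 + t ^ 4 / 3991680) := by
  obtain ⟨s, hs, rfl⟩ : ∃ s : ℝ, 0 ≤ s ∧ t = 144 / 25 - s := ⟨144 / 25 - t, by linarith, by ring⟩
  have h : (1 / 3 + 0.052 * (144 / 25 - s)) * (1 - (144 / 25 - s) / 6 + (144 / 25 - s) ^ 2 / 120 -
      (144 / 25 - s) ^ 3 / 5040 + (144 / 25 - s) ^ 4 / 362880 -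
      (144 / 25 - s) ^ 5 / 39916800) - (1 / 3 - (144 / 25 - s) / 30 + (144 / 25 - s) ^ 2 / 840 -
      (144 / 25 - s) ^ 3 / 45360 + (144 / 25 - s) ^ 4 / 3991680) =
      (144 / 25 - s) * (1274915321 / 6042480468750 + 2341411649 / 676757812500 * s +
        34369459 / 139218750000 * s ^ 2 + 1630763 / 233887500000 * s ^ 3 +
        1823 / 18711000000 * s ^ 4 + 13 / 9979200000 * s ^ 5) := by
    norm_num; ring
  rw [h]
  exact mul_nonneg h0 (by positivity)

/-- the one-variable inequality -/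
theorem key (x : ℝ) (h0 : 0 ≤ x) (h1 : x ≤ 12 / 5) :
    Real.sin x - x * Real.cos x ≤ (x ^ 2 / 3 + 0.052 * x ^ 4) * Real.sin x := by
  have hs := s6 x h0
  have hd := d5 x h0
  have ht : x ^ 2 ≤ 144 / 25 := by nlinarith
  have hp := poly (x ^ 2) (by positivity) ht
  have h2 : 0 ≤ x ^ 2 / 3 + 0.052 * x ^ 4 := by positivity
  have h3 := mul_nonneg h2 hs
  have h4 := mul_nonneg (pow_nonneg h0 3) hp
  nlinarith

theorem sinc_ge {x u : ℝ} (hx0 : 0 < x) (hx : x ≤ Real.pi) (hu0 : 0 ≤ u) (hu : u ≤ 1) :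
    Real.sinc x ≤ Real.sinc (u * x) := by
  rcases hu0.eq_or_lt with h | h
  · rw [← h]; simp [Real.sinc_le_one]
  · have hc := strictConcaveOn_sin_Icc.concaveOn.2 (x := 0) (y := x)
      ⟨le_refl _, Real.pi_pos.le⟩ ⟨hx0.le, hx⟩ (sub_nonneg.2 hu) hu0 (by ring)
    simp only [Real.sin_zero, smul_eq_mul, mul_zero, zero_add] at hc
    rw [Real.sinc_of_ne_zero hx0.ne', Real.sinc_of_ne_zero (mul_pos h hx0).ne',
      div_le_div_iff₀ hx0 (mul_pos h hx0)]
    nlinarith

theorem int_u2 {x : ℝ} (hx0 : 0 < x) :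
    ∫ u in (0:ℝ)..1, u ^ 2 * Real.sinc (u * x) = (Real.sin x - x * Real.cos x) / x ^ 3 := by
  have h1 : ∀ u : ℝ, u ^ 2 * Real.sinc (u * x) = u * Real.sin (u * x) / x := by
    intro u
    rcases eq_or_ne u 0 with h | h
    · subst h; simp
    · rw [Real.sinc_of_ne_zero (mul_ne_zero h hx0.ne')]
      field_simp
  simp_rw [h1]
  have h2 : ∀ u ∈ uIcc (0:ℝ) 1, HasDerivAt
      (fun u => (Real.sin (u * x) - u * x * Real.cos (u * x)) / x ^ 3)
      (u * Real.sin (u * x) / x) u := by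
    intro u _
    have ha : HasDerivAt (fun u : ℝ => u * x) x u := by
      simpa using (hasDerivAt_id u).mul_const x
    have hb := (ha.sin.sub (ha.mul ha.cos)).div_const (x ^ 3)
    refine hb.congr_deriv ?_
    field_simp
    ring
  rw [integral_eq_sub_of_hasDerivAt h2]
  · simp
  · apply Continuous.intervalIntegrable
    fun_prop

end Pool.Agent.H675.TF12

namespace Pool.Agent.H770.GS

open Pool.Agent.H675.TF12

theorem tf12 : S_TF12 := by
  intro h2 ε x hε hx0 hx1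
  obtain ⟨hz, ha, -⟩ := h2 ε hε
  have hcf0 : cf ε 0 = 1 := by
    unfold cf
    rw [div_eq_one_iff_eq hz.ne']
    unfold zt
    simp
  rcases hx0.eq_or_lt with hx | hx
  · rw [← hx, hcf0]; simp
  have hxpi : x ≤ Real.pi := by
    have := Real.pi_gt_three
    linarith
  have hs0 : 0 ≤ Real.sin x := Real.sin_nonneg_of_nonneg_of_le_pi hx0 hxpi
  have hsinc0 : 0 ≤ Real.sinc x := by
    rw [Real.sinc_of_ne_zero hx.ne']; exact div_nonneg hs0 hx0
  -- the difference
  have hck0 : ck ε 0 = ∫ u in (0:ℝ)..1, u ^ 2 * Real.exp (-(ε * u ^ 2)) := by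
    unfold ck; simp
  have hcont : Continuous fun u : ℝ => Real.sinc (u * x) :=
    Real.continuous_sinc.comp (by fun_prop)
  have hc1 : Continuous fun u : ℝ => u ^ 2 * Real.exp (-(ε * u ^ 2)) * Real.sinc (u * x) :=
    (by fun_prop : Continuous fun u : ℝ => u ^ 2 * Real.exp (-(ε * u ^ 2))).mul hcont
  have hc2 : Continuous fun u : ℝ => u ^ 2 * Real.exp (-(ε * u ^ 2)) := by fun_prop
  have hdiff : ck ε x - ck ε 0 * Real.sinc x =
      ∫ u in (0:ℝ)..1, u ^ 2 * Real.exp (-(ε * u ^ 2)) * (Real.sinc (u * x) - Real.sinc x) := by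
    rw [hck0, ← intervalIntegral.integral_mul_const]
    unfold ck
    have hc3 : Continuous fun u : ℝ => u ^ 2 * Real.exp (-(ε * u ^ 2)) * Real.sinc x :=
      hc2.mul continuous_const
    rw [← intervalIntegral.integral_sub (hc1.intervalIntegrable _ _) (hc3.intervalIntegrable _ _)]
    congr 1
    funext u
    ring
  have hle : ∫ u in (0:ℝ)..1, u ^ 2 * Real.exp (-(ε * u ^ 2)) * (Real.sinc (u * x) - Real.sinc x) ≤
      ∫ u in (0:ℝ)..1, u ^ 2 * (Real.sinc (u * x) - Real.sinc x) := by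
    apply intervalIntegral.integral_mono_on (by norm_num)
    · exact (hc2.mul (hcont.sub continuous_const)).intervalIntegrable _ _
    · exact ((by fun_prop : Continuous fun u : ℝ => u ^ 2).mul
        (hcont.sub continuous_const)).intervalIntegrable _ _
    · intro u hu
      have h3 : 0 ≤ Real.sinc (u * x) - Real.sinc x := sub_nonneg.2 (sinc_ge hx hxpi hu.1 hu.2)
      have h4 : Real.exp (-(ε * u ^ 2)) ≤ 1 := by
        rw [Real.exp_le_one_iff]
        have := mul_nonneg hε.le (sq_nonneg u)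
        linarith
      have h5 : u ^ 2 * Real.exp (-(ε * u ^ 2)) ≤ u ^ 2 := by
        nlinarith [sq_nonneg u]
      exact mul_le_mul_of_nonneg_right h5 h3
  have hval : ∫ u in (0:ℝ)..1, u ^ 2 * (Real.sinc (u * x) - Real.sinc x) =
      (Real.sin x - x * Real.cos x) / x ^ 3 - Real.sinc x / 3 := by
    have h6 : ∀ u : ℝ, u ^ 2 * (Real.sinc (u * x) - Real.sinc x) =
        u ^ 2 * Real.sinc (u * x) - u ^ 2 * Real.sinc x := fun u => by ring
    simp_rw [h6]
    have hc4 : Continuous fun u : ℝ => u ^ 2 * Real.sinc (u * x) :=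
      (by fun_prop : Continuous fun u : ℝ => u ^ 2).mul hcont
    have hc5 : Continuous fun u : ℝ => u ^ 2 * Real.sinc x := by fun_prop
    rw [intervalIntegral.integral_sub (hc4.intervalIntegrable _ _) (hc5.intervalIntegrable _ _),
      int_u2 hx, intervalIntegral.integral_mul_const, integral_pow]
    norm_num
    ring
  have hkey : (Real.sin x - x * Real.cos x) / x ^ 3 - Real.sinc x / 3 ≤
      0.052 * x ^ 2 * Real.sinc x := by
    have h7 := key x hx0 hx1
    have h8 : (Real.sin x - x * Real.cos x) / x ^ 3 ≤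
        (x ^ 2 / 3 + 0.052 * x ^ 4) * Real.sin x / x ^ 3 :=
      div_le_div_of_nonneg_right h7 (by positivity)
    have h9 : (x ^ 2 / 3 + 0.052 * x ^ 4) * Real.sin x / x ^ 3 =
        Real.sinc x / 3 + 0.052 * x ^ 2 * Real.sinc x := by
      rw [Real.sinc_of_ne_zero hx.ne']
      field_simp
    linarith
  have hfin : ck ε x - ck ε 0 * Real.sinc x ≤ 0.052 * x ^ 2 * Real.sinc x := by
    rw [hdiff]; linarith
  have hax := ha x
  have ha0 := ha 0
  rw [hcf0, Real.sinc_zero] at ha0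
  have hmul : zt ε * cf ε x ≤ zt ε * (Real.sinc x * (1 + 2 * ε / zt ε * 0.052 * x ^ 2)) := by
    have h10 : zt ε * (Real.sinc x * (1 + 2 * ε / zt ε * 0.052 * x ^ 2)) =
        zt ε * Real.sinc x + 2 * ε * (0.052 * x ^ 2 * Real.sinc x) := by
      field_simp
    rw [h10, hax]
    have h11 : zt ε * Real.sinc x = Real.exp (-ε) * Real.sinc x + 2 * ε * (ck ε 0 * Real.sinc x) := by
      have : zt ε = Real.exp (-ε) + 2 * ε * ck ε 0 := by linarith
      rw [this]; ring
    have h12 := mul_le_mul_of_nonneg_left hfin (by positivity : (0:ℝ) ≤ 2 * ε)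
    nlinarith
  exact le_of_mul_le_mul_left hmul hz

end Pool.Agent.H770.GS
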