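import Mathlib
import Pool.Agent.H576.CT.Stm

/-!
# Project CT (helper576): sizes of balls, packing
-/

set_option autoImplicit false
set_option linter.unusedSectionVars false

namespace Pool.Agent.H675

open Finset Pool.Agent.TH112.BW Pool.Agent.H576.CT

section

variable {V : Type} [Fintype V] [DecidableEq V] (G : SimpleGraph V)

theorem ct_mem_ball (x y : V) (r : ℕ) : y ∈ ball G x r ↔ G.dist x y ≤ r := by
  unfold ball
  simp only [mem_filter, mem_univ, true_and]

/-- a point of a shortest walk -/
theorem ct_between (hG : G.Connected) (x y : V) (a b : ℕ) (h : G.dist x y ≤ a + b) :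
    ∃ z, G.dist x z ≤ a ∧ G.dist z y ≤ b := by
  obtain ⟨p, hp⟩ := hG.exists_walk_length_eq_dist x y
  refine ⟨p.getVert a, ?_, ?_⟩
  · refine (SimpleGraph.dist_le (p.take a)).trans ?_
    rw [SimpleGraph.Walk.take_length]
    exact min_le_left _ _
  · refine (SimpleGraph.dist_le (p.drop a)).trans ?_
    rw [SimpleGraph.Walk.drop_length, hp]
    omega

theorem ct_ball_zero (hG : G.Connected) (x : V) : (ball G x 0).card = 1 := by
  have h : ball G x 0 = {x} := by
    ext y
    rw [ct_mem_ball, mem_singleton, Nat.le_zero, hG.dist_eq_zero_iff]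
    exact eq_comm
  rw [h, card_singleton]

theorem ct_ball_add (hG : G.Connected) (x : V) (a b v : ℕ) (h : ∀ z, (ball G z b).card ≤ v) :
    (ball G x (a + b)).card ≤ (ball G x a).card * v := by
  have h1 : ball G x (a + b) ⊆ (ball G x a).biUnion (fun z => ball G z b) := by
    intro y hy
    rw [ct_mem_ball] at hy
    obtain ⟨z, hz1, hz2⟩ := ct_between G hG x y a b hy
    rw [mem_biUnion]
    exact ⟨z, (ct_mem_ball G x z a).2 hz1, (ct_mem_ball G z y b).2 hz2⟩
  refine (card_le_card h1).trans (card_biUnion_le_card_mul _ _ _ fun z _ => h z)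

end

theorem ct_pack : S_PACK := by
  intro V _ _ G hG P r t htr hP q hq a R hPR
  have h1 : P.biUnion (fun p => ball G p t) ⊆ ball G a (R + t) := by
    intro y hy
    rw [mem_biUnion] at hy
    obtain ⟨p, hp, hy⟩ := hy
    rw [ct_mem_ball] at hy ⊢
    have h2 := (ct_mem_ball G a p R).1 (hPR hp)
    exact (hG.dist_triangle (u := a) (v := p) (w := y)).trans (add_le_add h2 hy)
  have h2 : (P.biUnion (fun p => ball G p t)).card = ∑ p ∈ P, (ball G p t).card := by
    apply card_biUnion
    intro p hp p' hp' hne
    show Disjoint (ball G p t) (ball G p' t)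
    rw [disjoint_left]
    intro y hy hy'
    rw [ct_mem_ball] at hy hy'
    have h3 := hP p (mem_coe.1 hp) p' (mem_coe.1 hp') hne
    have h4 : G.dist p p' ≤ G.dist p y + G.dist y p' := hG.dist_triangle
    rw [G.dist_comm (u := y) (v := p')] at h4
    omega
  calc P.card * q = ∑ _p ∈ P, q := by rw [sum_const, smul_eq_mul]
    _ ≤ ∑ p ∈ P, (ball G p t).card := sum_le_sum fun p _ => hq p
    _ = (P.biUnion (fun p => ball G p t)).card := h2.symm
    _ ≤ (ball G a (R + t)).card := card_le_card h1

theorem ct_balls : S_BALLS := by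
  intro V _ _ G _ hG
  constructor
  · intro Δ hΔ x r
    have h1 : ∀ z, (ball G z 1).card ≤ Δ + 1 := by
      intro z
      have h2 : ball G z 1 ⊆ insert z (G.neighborFinset z) := by
        intro y hy
        rw [ct_mem_ball] at hy
        rw [mem_insert, SimpleGraph.mem_neighborFinset]
        rcases Nat.lt_or_ge (G.dist z y) 1 with h | h
        · left
          exact ((hG.dist_eq_zero_iff).1 (by omega)).symm
        · right
          exact SimpleGraph.dist_eq_one_iff_adj.1 (by omega)
      refine (card_le_card h2).trans ((card_insert_le _ _).trans ?_)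
      rw [SimpleGraph.card_neighborFinset_eq_degree]
      exact Nat.succ_le_succ (hΔ z)
    induction r with
    | zero => rw [ct_ball_zero G hG, pow_zero]
    | succ r ih =>
      rw [pow_succ]
      exact (ct_ball_add G hG x r 1 (Δ + 1) h1).trans (Nat.mul_le_mul_right _ ih)
  · intro r v hv x m
    induction m with
    | zero => rw [Nat.zero_mul, ct_ball_zero G hG, pow_zero]
    | succ m ih =>
      rw [pow_succ, Nat.succ_mul]
      exact (ct_ball_add G hG x (m * r) r v hv).trans (Nat.mul_le_mul_right _ ih)

end Pool.Agent.H675
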