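import Pool.Agent.H857.TF.Core

/-!
# T4a: few polynomials with a factor with nonreal constant term

The lemmas up to `root_unity` are those of the file of helper790 on the statement P17.
-/

set_option autoImplicit false

namespace Pool.Agent.H675.TFT4a

open Module Polynomial Pool.Agent.W521.Descent Pool.Agent.W521.Density Pool.Agent.W521.Count
  Pool.Agent.X297.UB Pool.Agent.H857.PB Pool.Agent.H857.PA Pool.Agent.H857.HK Pool.Agent.H857.EF
  Pool.Agent.H857.WT Pool.Agent.H857.SG Pool.Agent.H857.PD Pool.Agent.H857.TF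

/-- Rational algebraic integers are integers. -/
lemma int_of_rat {r : ℚ} (h : IsIntegral ℤ (r : ℂ)) : ∃ n : ℤ, (r : ℂ) = n := by
  have h1 : IsIntegral ℤ r := by
    have := (isIntegral_algebraMap_iff (R := ℤ) (A := ℚ) (B := ℂ) (x := r)
      (algebraMap ℚ ℂ).injective)
    exact this.1 (by simpa using h)
  obtain ⟨n, hn⟩ := IsIntegrallyClosed.isIntegral_iff.1 h1
  exact ⟨n, by rw [← hn]; simp⟩

lemma quad_repr {D : ℕ} {z : ℂ} (h : z ∈ quadField D) : ∃ x y : ℚ,
    z = x + y * (Real.sqrt D * Complex.I) ∧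
    (starRingEnd ℂ) z = x - y * (Real.sqrt D * Complex.I) := by
  obtain ⟨x, y, rfl⟩ := h
  refine ⟨x, y, rfl, ?_⟩
  simp only [map_add, map_mul, map_ratCast, Complex.conj_ofReal, Complex.conj_I]
  ring

lemma conj_int {z : ℂ} (h : IsIntegral ℤ z) : IsIntegral ℤ ((starRingEnd ℂ) z) :=
  map_isIntegral_int (starRingEnd ℂ) h

lemma re_int {D : ℕ} {z : ℂ} (h : z ∈ quadField D) (hz : IsIntegral ℤ z) :
    ∃ n : ℤ, z + (starRingEnd ℂ) z = n := by
  obtain ⟨x, y, h1, h2⟩ := quad_repr h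
  have h3 : z + (starRingEnd ℂ) z = ((2 * x : ℚ) : ℂ) := by
    rw [h2]; nth_rw 1 [h1]; push_cast; ring
  obtain ⟨n, hn⟩ := int_of_rat (r := 2 * x) (by rw [← h3]; exact hz.add (conj_int hz))
  exact ⟨n, by rw [h3, hn]⟩

lemma im_int {D : ℕ} {z w : ℂ} (h : z ∈ quadField D) (hz : IsIntegral ℤ z)
    (h' : w ∈ quadField D) (hw : IsIntegral ℤ w) :
    ∃ n : ℤ, (z - (starRingEnd ℂ) z) * (w - (starRingEnd ℂ) w) = n := by
  obtain ⟨x, y, h1, h2⟩ := quad_repr h
  obtain ⟨x', y', h1', h2'⟩ := quad_repr h'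
  have hs : ((Real.sqrt D : ℝ) : ℂ) * ((Real.sqrt D : ℝ) : ℂ) = (D : ℂ) := by
    rw [← Complex.ofReal_mul, Real.mul_self_sqrt (Nat.cast_nonneg D)]
    simp
  have h3 : (z - (starRingEnd ℂ) z) * (w - (starRingEnd ℂ) w) =
      ((-4 * y * y' * D : ℚ) : ℂ) := by
    rw [h2, h2']; nth_rw 1 [h1]; nth_rw 1 [h1']; push_cast
    have : (x + y * (Real.sqrt D * Complex.I) - (x - y * (Real.sqrt D * Complex.I)) : ℂ) *
        (x' + y' * (Real.sqrt D * Complex.I) - (x' - y' * (Real.sqrt D * Complex.I))) =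
        4 * y * y' * (((Real.sqrt D : ℝ) : ℂ) * ((Real.sqrt D : ℝ) : ℂ)) *
          (Complex.I * Complex.I) := by ring
    rw [this, hs, Complex.I_mul_I]; ring
  obtain ⟨n, hn⟩ := int_of_rat (r := -4 * y * y' * D) (by
    rw [← h3]; exact (hz.sub (conj_int hz)).mul (hw.sub (conj_int hw)))
  exact ⟨n, by rw [h3, hn]⟩

/-- The functional equation for the coefficients. -/
lemma func {h : ℂ[X]} (hm : h.Monic) {n q : ℕ} (hdeg : h.natDegree = n)
    (hr : ∀ z, h.IsRoot z → ‖z‖ ^ 2 = q) (i : ℕ) (hi : i ≤ n) :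
    h.coeff i * (q : ℂ) ^ i = h.coeff 0 * (starRingEnd ℂ) (h.coeff (n - i)) := by
  have hprod : h = (h.roots.map (fun a => X - C a)).prod :=
    (IsAlgClosed.splits h).eq_prod_roots_of_monic hm
  have hcard : Multiset.card h.roots = n := by
    rw [← (IsAlgClosed.splits h).natDegree_eq_card_roots, hdeg]
  have hz : ∀ z ∈ h.roots, z * (starRingEnd ℂ) z = q := by
    intro z hz
    rw [Complex.mul_conj, Complex.normSq_eq_norm_sq, hr z (isRoot_of_mem_roots hz)]
    simp
  have hev : ∀ x : ℂ, h.eval x = (h.roots.map (fun a => x - a)).prod := by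
    intro x
    conv_lhs => rw [hprod]
    rw [eval_multiset_prod, Multiset.map_map]
    simp
  have hevb : ∀ x : ℂ, (h.map (starRingEnd ℂ)).eval x =
      (h.roots.map (fun a => x - (starRingEnd ℂ) a)).prod := by
    intro x
    conv_lhs => rw [hprod]
    rw [Polynomial.map_multiset_prod, eval_multiset_prod, Multiset.map_map, Multiset.map_map]
    simp
  have hc0 : (starRingEnd ℂ) (h.coeff 0) =
      (h.roots.map (fun a => -(starRingEnd ℂ) a)).prod := by
    rw [coeff_zero_eq_eval_zero, hev, map_multiset_prod, Multiset.map_map]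
    simp
  have hfe : ∀ x : ℂ, x ≠ 0 → x ^ n * (h.map (starRingEnd ℂ)).eval ((q : ℂ) / x) =
      (starRingEnd ℂ) (h.coeff 0) * h.eval x := by
    intro x hx
    rw [hevb, hc0, hev, ← hcard, ← Multiset.prod_replicate, ← Multiset.map_const',
      ← Multiset.prod_map_mul, ← Multiset.prod_map_mul]
    congr 1
    refine Multiset.map_congr rfl fun a ha => ?_
    rw [← hz a ha]
    field_simp
    ring
  set P : ℂ[X] := ∑ j ∈ Finset.range (n + 1),
    C ((starRingEnd ℂ) (h.coeff j) * (q : ℂ) ^ j) * X ^ (n - j) with hP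
  have hPe : ∀ x : ℂ, x ≠ 0 → P.eval x = x ^ n * (h.map (starRingEnd ℂ)).eval ((q : ℂ) / x) := by
    intro x hx
    rw [eval_eq_sum_range' (p := h.map (starRingEnd ℂ)) (n := n + 1) (by
      rw [natDegree_map, hdeg]; exact Nat.lt_succ_self n), hP, eval_finsetSum, Finset.mul_sum]
    refine Finset.sum_congr rfl fun j hj => ?_
    have hj' : j ≤ n := Nat.lt_succ_iff.1 (Finset.mem_range.1 hj)
    rw [eval_mul, eval_C, eval_pow, eval_X, coeff_map, div_pow]
    have : x ^ n = x ^ (n - j) * x ^ j := by rw [← pow_add, Nat.sub_add_cancel hj']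
    rw [this]
    field_simp
  have hPh : P = C ((starRingEnd ℂ) (h.coeff 0)) * h := by
    have h1 : X * P = X * (C ((starRingEnd ℂ) (h.coeff 0)) * h) := by
      refine Polynomial.funext fun x => ?_
      by_cases hx : x = 0
      · subst hx; simp
      · rw [eval_mul, eval_mul, hPe x hx, hfe x hx, eval_mul, eval_C]
    exact mul_left_cancel₀ X_ne_zero h1
  have h2 : P.coeff (n - i) = (starRingEnd ℂ) (h.coeff i) * (q : ℂ) ^ i := by
    rw [hP, finsetSum_coeff, Finset.sum_eq_single i]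
    · rw [coeff_C_mul, coeff_X_pow]; simp
    · intro j hj hji
      have hj' : j ≤ n := Nat.lt_succ_iff.1 (Finset.mem_range.1 hj)
      rw [coeff_C_mul, coeff_X_pow, if_neg (by omega), mul_zero]
    · intro hni
      exact absurd (Finset.mem_range.2 (Nat.lt_succ_iff.2 hi)) hni
  have h3 : P.coeff (n - i) = (starRingEnd ℂ) (h.coeff 0) * h.coeff (n - i) := by
    rw [hPh, coeff_C_mul]
  have h4 := congrArg (starRingEnd ℂ) (h2.symm.trans h3)
  simpa using h4

/-- A monic polynomial with the functional equation is `opol`. -/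
lemma eq_opol {r q : ℕ} {h : ℂ[X]} (hm : h.Monic) (hdeg : h.natDegree = 2 * r + 1)
    (a : Fin r → ℂ) (ha : ∀ j : Fin r, a j = h.coeff (2 * r - (j : ℕ)))
    (hb : ∀ j : Fin r, h.coeff ((j : ℕ) + 1) =
      h.coeff 0 * ((q : ℂ) ^ ((j : ℕ) + 1))⁻¹ * (starRingEnd ℂ) (a j)) :
    h = opol r q (h.coeff 0) a := by
  have h1 : opol r q (h.coeff 0) a = X ^ (2 * r + 1) + (∑ j ∈ Finset.range r,
      C (h.coeff (2 * r - j)) * X ^ (2 * r - j) +
      ∑ j ∈ Finset.range r, C (h.coeff (j + 1)) * X ^ (j + 1)) + C (h.coeff 0) := by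
    rw [← Finset.sum_add_distrib, ← Fin.sum_univ_eq_sum_range
      (fun j => C (h.coeff (2 * r - j)) * X ^ (2 * r - j) +
        C (h.coeff (j + 1)) * X ^ (j + 1)) r, opol]
    congr 2
    refine Finset.sum_congr rfl fun j _ => ?_
    rw [← hb j, ha j]
  rw [h1]
  have h3 := hm.as_sum
  rw [hdeg] at h3
  have h4 : ∑ i ∈ Finset.range (2 * r + 1), C (h.coeff i) * X ^ i =
      (∑ j ∈ Finset.range r, C (h.coeff (2 * r - j)) * X ^ (2 * r - j) +
      ∑ j ∈ Finset.range r, C (h.coeff (j + 1)) * X ^ (j + 1)) + C (h.coeff 0) := by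
    have h5 : ∑ j ∈ Finset.range r, C (h.coeff (2 * r - j)) * X ^ (2 * r - j) =
        ∑ j ∈ Finset.range r, C (h.coeff (r + j + 1)) * X ^ (r + j + 1) := by
      rw [← Finset.sum_range_reflect (fun j => C (h.coeff (r + j + 1)) * X ^ (r + j + 1)) r]
      refine Finset.sum_congr rfl fun j hj => ?_
      have hj' := Finset.mem_range.1 hj
      have e1 : 2 * r - j = r + (r - 1 - j) + 1 := by omega
      rw [e1]
    rw [h5, Finset.sum_range_succ', two_mul r, Finset.sum_range_add]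
    simp only [pow_zero, mul_one]
    ring
  rw [h4, ← add_assoc] at h3
  exact h3

/-- Roots of unity in an imaginary quadratic field. -/
lemma root_unity {D N : ℕ} {z : ℂ} (hN : 0 < N) (hz : z ∈ quadField D) (h : z ^ N = 1) :
    z ^ 12 = 1 := by
  have hint : IsIntegral ℤ z := by
    refine ⟨X ^ N - C 1, monic_X_pow_sub_C _ hN.ne', ?_⟩
    simp [h]
  have hn : ‖z‖ = 1 := by
    have h1 : ‖z‖ ^ N = 1 := by rw [← norm_pow, h, NormOneClass.norm_one]
    exact (pow_eq_one_iff_of_nonneg (norm_nonneg _) hN.ne').1 h1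
  obtain ⟨n, hn1⟩ := re_int hz hint
  have hprod : z * (starRingEnd ℂ) z = 1 := by
    rw [Complex.mul_conj, Complex.normSq_eq_norm_sq, hn]
    simp
  have hle : |(n : ℝ)| ≤ 2 := by
    have h1 : ‖((n : ℤ) : ℂ)‖ = |(n : ℝ)| := by
      rw [Complex.norm_intCast]
    rw [← h1, ← hn1]
    refine (norm_add_le _ _).trans ?_
    rw [Complex.norm_conj, hn]
    norm_num
  have hle2 : -2 ≤ n ∧ n ≤ 2 := by
    have h1 := abs_le.1 hle
    constructor
    · exact_mod_cast h1.1
    · exact_mod_cast h1.2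
  have hq : z ^ 2 = n * z - 1 := by
    have h1 : (starRingEnd ℂ) z = n - z := by rw [← hn1]; ring
    rw [h1] at hprod
    linear_combination -hprod
  obtain ⟨hl, hu⟩ := hle2
  have hcases : n = -2 ∨ n = -1 ∨ n = 0 ∨ n = 1 ∨ n = 2 := by omega
  rcases hcases with rfl | rfl | rfl | rfl | rfl
  · have h2 : (z + 1) ^ 2 = 0 := by
      push_cast at hq
      linear_combination hq
    have h3 : z = -1 := by
      have := pow_eq_zero_iff (two_ne_zero) |>.1 h2
      linear_combination this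
    rw [h3]
    norm_num
  · push_cast at hq
    have h3 : z ^ 3 = 1 := by linear_combination (z - 1) * hq
    calc z ^ 12 = (z ^ 3) ^ 4 := by ring
      _ = 1 := by rw [h3, one_pow]
  · push_cast at hq
    have h3 : z ^ 2 = -1 := by linear_combination hq
    calc z ^ 12 = (z ^ 2) ^ 6 := by ring
      _ = 1 := by rw [h3]; norm_num
  · push_cast at hq
    have h3 : z ^ 3 = -1 := by linear_combination (z + 1) * hq
    calc z ^ 12 = (z ^ 3) ^ 4 := by ring
      _ = 1 := by rw [h3]; norm_num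
  · have h2 : (z - 1) ^ 2 = 0 := by
      push_cast at hq
      linear_combination hq
    have h3 : z = 1 := by
      have := pow_eq_zero_iff (two_ne_zero) |>.1 h2
      linear_combination this
    rw [h3]
    norm_num

/-- The data attached to a polynomial. -/
lemma data {q : ℕ} {f : ℤ[X]} (hq : 0 < q) (hf : f ∈ weilPolys q 3) (hW : OddNR q f) :
    ∃ (D : ℕ) (w a : ℂ), w ∈ quadField D ∧ a ∈ quadField D ∧ IsIntegral ℤ a ∧ w.im ≠ 0 ∧
      w ^ 24 = (q : ℂ) ^ 36 ∧ ‖a‖ ≤ 16 * Real.sqrt q ∧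
      f.map (Int.castRingHom ℂ) = opol 1 q w (fun _ => a) *
        (opol 1 q w (fun _ => a)).map (starRingEnd ℂ) := by
  obtain ⟨D, h, hD, hh, hquad, hfac, -, ⟨N, hN, h0N⟩, him⟩ := hW
  obtain ⟨hfm, hfdeg, -, hfr⟩ := hf
  have hhc : (h.map (starRingEnd ℂ)).Monic := hh.map _
  have hdeg : h.natDegree = 2 * 1 + 1 := by
    have h1 : (f.map (Int.castRingHom ℂ)).natDegree = h.natDegree + h.natDegree := by
      rw [hfac, hh.natDegree_mul hhc, natDegree_map]
    rw [hfm.natDegree_map, hfdeg] at h1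
    omega
  have hq0 : (q : ℂ) ≠ 0 := by exact_mod_cast hq.ne'
  have hroot : ∀ z, h.IsRoot z → ‖z‖ ^ 2 = q := by
    intro z hz
    refine hfr z ?_
    have h1 : (f.map (Int.castRingHom ℂ)).eval z = 0 := by
      rw [hfac, eval_mul, hz.eq_zero, zero_mul]
    rw [eval_map] at h1
    exact h1
  have hint : ∀ i, IsIntegral ℤ (h.coeff i) := fun i =>
    isIntegral_coeff_of_dvd f h hfm hh (Dvd.intro _ hfac.symm) i
  have hfun := func hh hdeg hroot
  have hqg : (q : ℂ) ^ 3 ≠ 0 := pow_ne_zero _ hq0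
  have homega : h.coeff 0 ^ 24 = (q : ℂ) ^ 36 := by
    have hζN : (h.coeff 0 ^ 2 / (q : ℂ) ^ 3) ^ N = 1 := by
      rw [div_pow, ← pow_mul, h0N, div_self (pow_ne_zero _ hqg)]
    have hζq : h.coeff 0 ^ 2 / (q : ℂ) ^ 3 ∈ quadField D := by
      obtain ⟨x, y, hxy⟩ := hquad 0
      have hs : ((Real.sqrt D : ℝ) : ℂ) * ((Real.sqrt D : ℝ) : ℂ) = (D : ℂ) := by
        rw [← Complex.ofReal_mul, Real.mul_self_sqrt (Nat.cast_nonneg D)]
        simp
      refine ⟨(x ^ 2 - D * y ^ 2) / (q : ℚ) ^ 3, 2 * x * y / (q : ℚ) ^ 3, ?_⟩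
      have h1 : h.coeff 0 ^ 2 = (x ^ 2 - D * y ^ 2 : ℂ) +
          2 * x * y * (Real.sqrt D * Complex.I) := by
        rw [hxy, ← hs]
        have := Complex.I_mul_I
        linear_combination (y : ℂ) ^ 2 * ((Real.sqrt D : ℝ) : ℂ) ^ 2 * this
      rw [h1]
      push_cast
      field_simp
    have h1 := root_unity hN hζq hζN
    rw [div_pow, div_eq_one_iff_eq (pow_ne_zero _ hqg), ← pow_mul, ← pow_mul] at h1
    exact h1
  refine ⟨D, h.coeff 0, h.coeff 2, hquad 0, hquad 2, hint 2, him, homega, ?_, ?_⟩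
  · have h1 := coeff_le_of_roots_le (p := h) (f := RingHom.id ℂ) (B := Real.sqrt q)
      2 hh (IsAlgClosed.splits _) (by
        intro z hz
        rw [Polynomial.map_id] at hz
        have := hroot z (isRoot_of_mem_roots hz)
        exact Real.le_sqrt_of_sq_le this.le)
    rw [Polynomial.map_id, hdeg] at h1
    have e1 : 2 * 1 + 1 - 2 = 1 := rfl
    have e2 : (2 * 1 + 1).choose 2 = 3 := by decide
    rw [e1, e2, pow_one] at h1
    refine h1.trans ?_
    have h2 := Real.sqrt_nonneg (q : ℝ)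
    push_cast
    linarith
  · have h1 : h = opol 1 q (h.coeff 0) (fun _ => h.coeff 2) := by
      refine eq_opol hh hdeg _ (fun j => ?_) (fun j => ?_)
      · have hj : (j : ℕ) = 0 := by omega
        rw [hj]
      · have hj : (j : ℕ) = 0 := by omega
        have h1 := hfun 1 (by omega)
        have e1 : 2 * 1 + 1 - 1 = 2 := rfl
        rw [e1] at h1
        rw [hj, zero_add]
        have hqj : (q : ℂ) ^ 1 ≠ 0 := pow_ne_zero _ hq0
        refine mul_right_cancel₀ hqj ?_
        rw [h1]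
        field_simp
    rw [← h1]
    exact hfac

/-- Two imaginary quadratic fields with a common nonreal element are equal. -/
lemma quad_same {D D' : ℕ} {w z : ℂ} (h1 : w ∈ quadField D) (h2 : w ∈ quadField D')
    (h3 : w.im ≠ 0) (h4 : z ∈ quadField D') : z ∈ quadField D := by
  obtain ⟨x, y, hxy⟩ := h1
  obtain ⟨x', y', hxy'⟩ := h2
  obtain ⟨s, t, hst⟩ := h4
  have i1 : w.im = y * Real.sqrt D := by
    rw [hxy]
    simp
  have i2 : w.im = y' * Real.sqrt D' := by
    rw [hxy']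
    simp
  have hy' : (y' : ℝ) ≠ 0 := by
    intro h0
    rw [i2, h0, zero_mul] at h3
    exact h3 rfl
  have e : Real.sqrt D' = (y / y' : ℝ) * Real.sqrt D := by
    rw [div_mul_eq_mul_div, eq_div_iff hy', ← i1, i2, mul_comm]
  refine ⟨s, t * y / y', ?_⟩
  rw [hst, e]
  push_cast
  ring

/-- The imaginary parts are separated. -/
lemma im_eq {D D' : ℕ} {w a b : ℂ} (hw : w ∈ quadField D) (hw' : w ∈ quadField D')
    (him : w.im ≠ 0) (ha : a ∈ quadField D) (hb : b ∈ quadField D') (hai : IsIntegral ℤ a)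
    (hbi : IsIntegral ℤ b) (hfl : ⌊2 * a.im⌋ = ⌊2 * b.im⌋) : a.im = b.im := by
  have hb2 : b ∈ quadField D := quad_same hw hw' him hb
  obtain ⟨n1, e1⟩ := im_int ha hai ha hai
  obtain ⟨n2, e2⟩ := im_int ha hai hb2 hbi
  obtain ⟨n3, e3⟩ := im_int hb2 hbi hb2 hbi
  have key : ∀ (u v : ℂ) (n : ℤ), (u - (starRingEnd ℂ) u) * (v - (starRingEnd ℂ) v) = n →
      (2 * u.im) * (2 * v.im) = -(n : ℝ) := by
    intro u v n hn
    rw [Complex.sub_conj, Complex.sub_conj] at hn
    have h1 : (((2 * u.im) * (2 * v.im) : ℝ) : ℂ) = ((-n : ℝ) : ℂ) := by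
      have h2 := Complex.I_mul_I
      push_cast at hn ⊢
      linear_combination (-1 : ℂ) * hn + (2 * (u.im : ℂ)) * (2 * (v.im : ℂ)) * h2
    exact Complex.ofReal_injective h1
  have k1 := key _ _ _ e1
  have k2 := key _ _ _ e2
  have k3 := key _ _ _ e3
  have hsq : (2 * a.im - 2 * b.im) ^ 2 = ((-n1 + 2 * n2 - n3 : ℤ) : ℝ) := by
    push_cast
    linear_combination k1 - 2 * k2 + k3
  have hlt : |2 * a.im - 2 * b.im| < 1 := Int.abs_sub_lt_one_of_floor_eq_floor hfl
  have hlt2 : (2 * a.im - 2 * b.im) ^ 2 < 1 := by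
    rw [← sq_abs]
    have := abs_nonneg (2 * a.im - 2 * b.im)
    nlinarith
  rw [hsq] at hlt2
  have h0 : 0 ≤ (((-n1 + 2 * n2 - n3 : ℤ)) : ℝ) := by
    rw [← hsq]
    positivity
  have hz : (-n1 + 2 * n2 - n3 : ℤ) = 0 := by
    have u1 : (-n1 + 2 * n2 - n3 : ℤ) < 1 := by exact_mod_cast hlt2
    have u2 : 0 ≤ (-n1 + 2 * n2 - n3 : ℤ) := by exact_mod_cast h0
    omega
  rw [hz, Int.cast_zero] at hsq
  have := pow_eq_zero_iff (two_ne_zero) |>.1 hsq
  linarith

/-- T4a -/
theorem t4a : T4a := by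
  refine ⟨24 * 65 * 66, by norm_num, ?_⟩
  intro q hq
  obtain ⟨S, hS⟩ : ∃ S : Set ℤ[X], S = {f ∈ weilPolys q 3 | OddNR q f} := ⟨_, rfl⟩
  rw [← hS]
  have hdat : ∀ f : S, ∃ (D : ℕ) (w a : ℂ), w ∈ quadField D ∧ a ∈ quadField D ∧ IsIntegral ℤ a ∧
      w.im ≠ 0 ∧ w ^ 24 = (q : ℂ) ^ 36 ∧ ‖a‖ ≤ 16 * Real.sqrt q ∧
      (f : ℤ[X]).map (Int.castRingHom ℂ) = opol 1 q w (fun _ => a) *
        (opol 1 q w (fun _ => a)).map (starRingEnd ℂ) := by
    intro f
    have hf : (f : ℤ[X]) ∈ {f ∈ weilPolys q 3 | OddNR q f} := by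
      rw [← hS]
      exact f.2
    exact data hq hf.1 hf.2
  choose D w a hw ha hai him hom hle hfac using hdat
  choose A hA using fun f => re_int (ha f) (hai f)
  have hsq1 : (1 : ℝ) ≤ Real.sqrt q := by
    rw [Real.one_le_sqrt]
    exact_mod_cast hq
  obtain ⟨M, hM⟩ : ∃ M : ℤ, M = ⌊32 * Real.sqrt q⌋ := ⟨_, rfl⟩
  have hM1 : (M : ℝ) ≤ 32 * Real.sqrt q := by rw [hM]; exact Int.floor_le _
  have hM0 : 0 ≤ M := by rw [hM]; exact Int.floor_nonneg.2 (by positivity)
  classical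
  obtain ⟨T, hT⟩ : ∃ T : Finset (ℂ × ℤ × ℤ), T = (nthRoots 24 ((q : ℂ) ^ 36)).toFinset ×ˢ
      (Finset.Icc (-M) M ×ˢ Finset.Icc (-M - 1) M) := ⟨_, rfl⟩
  have hre : ∀ f, 2 * (a f).re = A f := by
    intro f
    have h1 := hA f
    rw [Complex.add_conj] at h1
    exact_mod_cast h1
  have hmem : ∀ f : S, (w f, A f, ⌊2 * (a f).im⌋) ∈ T := by
    intro f
    rw [hT, Finset.mem_product, Finset.mem_product]
    have h1 := Complex.abs_re_le_norm (a f)
    have h2 := Complex.abs_im_le_norm (a f)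
    have h3 := hle f
    have h4 := abs_le.1 (h1.trans h3)
    have h5 := abs_le.1 (h2.trans h3)
    refine ⟨?_, ?_, ?_⟩
    · rw [Multiset.mem_toFinset, mem_nthRoots (by norm_num)]
      exact hom f
    · rw [Finset.mem_Icc]
      have h6 := hre f
      constructor
      · have h7 : -A f ≤ M := by
          rw [hM, Int.le_floor]
          push_cast
          linarith [h4.1]
        exact neg_le.1 h7
      · show A f ≤ M
        rw [hM, Int.le_floor]
        linarith [h4.2]
    · rw [Finset.mem_Icc]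
      constructor
      · show -M - 1 ≤ ⌊2 * (a f).im⌋
        rw [Int.le_floor]
        have h7 : 32 * Real.sqrt q < M + 1 := by rw [hM]; exact Int.lt_floor_add_one _
        push_cast
        linarith [h5.1]
      · show ⌊2 * (a f).im⌋ ≤ M
        rw [hM]
        exact Int.floor_le_floor (by linarith [h5.2])
  have hinj : Function.Injective (fun f : S => (⟨(w f, A f, ⌊2 * (a f).im⌋), hmem f⟩ : T)) := by
    intro f f' h
    have h0 : (w f, A f, ⌊2 * (a f).im⌋) = (w f', A f', ⌊2 * (a f').im⌋) := congrArg Subtype.val h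
    have h1 : w f = w f' := congrArg (fun p => p.1) h0
    have h2 : A f = A f' := congrArg (fun p => p.2.1) h0
    have h3 : ⌊2 * (a f).im⌋ = ⌊2 * (a f').im⌋ := congrArg (fun p => p.2.2) h0
    have h4 : (a f).im = (a f').im := by
      refine im_eq (hw f) ?_ (him f) (ha f) (ha f') (hai f) (hai f') h3
      rw [h1]
      exact hw f'
    have h5 : a f = a f' := by
      apply Complex.ext _ h4
      have u1 := hre f
      have u2 := hre f'
      rw [h2] at u1
      linarith
    have h6 : (f : ℤ[X]).map (Int.castRingHom ℂ) = (f' : ℤ[X]).map (Int.castRingHom ℂ) := by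
      rw [hfac f, hfac f', h1, h5]
    exact Subtype.ext (Polynomial.map_injective _ Int.cast_injective h6)
  have hfin : Finite S := Finite.of_injective _ hinj
  refine ⟨Set.toFinite S, ?_⟩
  have hcard : S.ncard ≤ T.card := by
    have h1 := Nat.card_le_card_of_injective _ hinj
    rw [Nat.card_coe_set_eq, Nat.card_eq_fintype_card, Fintype.card_coe] at h1
    exact h1
  have hTc : (T.card : ℝ) ≤ 24 * (2 * M + 1) * (2 * M + 2) := by
    rw [hT, Finset.card_product, Finset.card_product, Int.card_Icc, Int.card_Icc]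
    have h1 : (nthRoots 24 ((q : ℂ) ^ 36)).toFinset.card ≤ 24 :=
      (Multiset.toFinset_card_le _).trans (card_nthRoots _ _)
    have h2 : (((M + 1 - -M).toNat : ℕ) : ℤ) = 2 * M + 1 := by
      rw [Int.toNat_of_nonneg (by omega)]
      ring
    have h3 : (((M + 1 - (-M - 1)).toNat : ℕ) : ℤ) = 2 * M + 2 := by
      rw [Int.toNat_of_nonneg (by omega)]
      ring
    have h2' : (((M + 1 - -M).toNat : ℕ) : ℝ) = 2 * M + 1 := by exact_mod_cast h2
    have h3' : (((M + 1 - (-M - 1)).toNat : ℕ) : ℝ) = 2 * M + 2 := by exact_mod_cast h3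
    have h1' : ((nthRoots 24 ((q : ℂ) ^ 36)).toFinset.card : ℝ) ≤ 24 := by exact_mod_cast h1
    rw [Nat.cast_mul, Nat.cast_mul, h2', h3', mul_assoc]
    have hMr : (0 : ℝ) ≤ M := by exact_mod_cast hM0
    exact mul_le_mul_of_nonneg_right h1' (by positivity)
  have hMr : (0 : ℝ) ≤ M := by exact_mod_cast hM0
  have hsq2 : Real.sqrt q * Real.sqrt q = q := Real.mul_self_sqrt (Nat.cast_nonneg q)
  calc (S.ncard : ℝ) ≤ (T.card : ℝ) := by exact_mod_cast hcard
    _ ≤ 24 * (2 * M + 1) * (2 * M + 2) := hTc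
    _ ≤ 24 * (65 * Real.sqrt q) * (66 * Real.sqrt q) := by
        apply mul_le_mul _ (by linarith) (by positivity) (by positivity)
        apply mul_le_mul_of_nonneg_left _ (by norm_num)
        linarith
    _ = 24 * 65 * 66 * (Real.sqrt q * Real.sqrt q) := by ring
    _ = 24 * 65 * 66 * q := by rw [hsq2]

end Pool.Agent.H675.TFT4a
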